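import Pool.Agent.H782.Sym.Words
import Pool.Agent.H818R2.Ram.Erdos

set_option autoImplicit false

/-! The two-sided bound for two colours. -/

namespace Pool.Agent.H782.Sym

open Finset Pool.Agent.H818R2.Ram

/-- There is a colouring of the pairs of 0-1 words of length `m` with two colours whose colour
classes are preserved or exchanged by every permutation of the coordinates inside `b` blocks, and
which has no monochromatic set of `k` words. -/
def Good (b m k : ℕ) : Prop :=
  ∃ (β : Fin m → Fin b) (c : (Fin m → Bool) → (Fin m → Bool) → Fin 2),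
    (∀ x y, c x y = c y x) ∧ BlockInvariant β c ∧ ¬ HasMono c k

lemma good_of_lt {b m k : ℕ} (hmb : m ≤ b) (h : 2 ^ m < R k k) : Good b m k := by
  classical
  obtain ⟨G, hG1, hG2⟩ := exists_coloring h
  have hcard : Fintype.card (Fin m → Bool) = 2 ^ m := by
    rw [Fintype.card_fun, Fintype.card_bool, Fintype.card_fin]
  let e : (Fin m → Bool) ≃ Fin (2 ^ m) := Fintype.equivFinOfCardEq hcard
  refine ⟨Fin.castLE hmb, fun x y => if G.Adj (e x) (e y) then 0 else 1, ?_, ?_, ?_⟩
  · intro x y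
    simp only [G.adj_comm (e x) (e y)]
  · intro σ hσ
    have h1 : σ = 1 := by
      ext i
      have := hσ i
      rw [Fin.castLE_inj] at this
      rw [this]
      rfl
    subst h1
    exact ⟨1, fun x y _ => rfl⟩
  · rintro ⟨S, hS, col, hcol⟩
    have hS' : k ≤ (S.map e.toEmbedding).card := by rwa [card_map]
    obtain ⟨T, hT, hTk⟩ := exists_subset_card_eq hS'
    have hmem : ∀ y ∈ T, ∃ x ∈ S, e x = y := by
      intro y hy
      obtain ⟨x, hx, rfl⟩ := mem_map.1 (hT hy)
      exact ⟨x, hx, rfl⟩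
    by_cases hc : col = 0
    · apply hG1
      refine ⟨T, subset_univ _, ?_⟩
      rw [SimpleGraph.isNClique_iff]
      refine ⟨?_, hTk⟩
      intro y hy z hz hyz
      obtain ⟨x, hx, rfl⟩ := hmem y hy
      obtain ⟨x', hx', rfl⟩ := hmem z hz
      have h3 := hcol x hx x' hx' fun h => hyz (by rw [h])
      rw [hc] at h3
      by_contra h4
      have h5 : (if G.Adj (e x) (e x') then (0 : Fin 2) else 1) = 0 := h3
      rw [if_neg h4] at h5
      exact absurd h5 (by decide)
    · apply hG2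
      refine ⟨T, subset_univ _, ?_⟩
      rw [SimpleGraph.isNClique_iff]
      refine ⟨?_, hTk⟩
      intro y hy z hz hyz
      obtain ⟨x, hx, rfl⟩ := hmem y hy
      obtain ⟨x', hx', rfl⟩ := hmem z hz
      have h3 := hcol x hx x' hx' fun h => hyz (by rw [h])
      rw [SimpleGraph.compl_adj]
      refine ⟨hyz, fun h4 => ?_⟩
      have h5 : (if G.Adj (e x) (e x') then (0 : Fin 2) else 1) = col := h3
      rw [if_pos h4] at h5
      exact hc h5.symm

lemma lt_of_good {b m k : ℕ} (h : Good b m k) : 2 ^ m < R k k := by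
  classical
  obtain ⟨β, c, hsym, -, hno⟩ := h
  by_contra hcon
  push Not at hcon
  let G : SimpleGraph (Fin m → Bool) :=
    { Adj := fun x y => x ≠ y ∧ c x y = 0
      symm := ⟨fun x y h => ⟨h.1.symm, by rw [hsym]; exact h.2⟩⟩
      loopless := ⟨fun x h => h.1 rfl⟩ }
  have hcard : (univ : Finset (Fin m → Bool)).card = 2 ^ m := by
    rw [card_univ, Fintype.card_fun, Fintype.card_bool, Fintype.card_fin]
  rcases arrows_embed (arrows_R k k) G univ (by rw [hcard]; exact hcon) with ⟨s, -, hs⟩ | ⟨s, -, hs⟩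
  · rw [SimpleGraph.isNClique_iff] at hs
    refine hno ⟨s, hs.2.ge, 0, fun x hx y hy hxy => ?_⟩
    exact (hs.1 hx hy hxy).2
  · rw [SimpleGraph.isNClique_iff] at hs
    refine hno ⟨s, hs.2.ge, 1, fun x hx y hy hxy => ?_⟩
    have h3 := hs.1 hx hy hxy
    rw [SimpleGraph.compl_adj] at h3
    have h4 : c x y ≠ 0 := fun h => h3.2 ⟨hxy, h⟩
    have h5 := (c x y).isLt
    apply Fin.ext
    have h6 : (c x y : ℕ) ≠ 0 := fun h => h4 (Fin.ext h)
    show (c x y : ℕ) = 1
    omega

lemma two_pow_lt_R {m k : ℕ} (hk : 3 ≤ k) (h : 2 * m ≤ k) : 2 ^ m < R k k := by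
  have h1 := erdos_lower hk
  have h2 : (2 ^ m) ^ 2 < (R k k) ^ 2 := by
    calc (2 ^ m) ^ 2 = 2 ^ (2 * m) := by rw [← pow_mul, mul_comm]
      _ ≤ 2 ^ k := Nat.pow_le_pow_right (by norm_num) h
      _ < _ := h1
  exact lt_of_pow_lt_pow_left₀ 2 (Nat.zero_le _) h2

/-- The longest words with a good block-invariant colouring: `min (b, log₂ R(k,k)) k ^ o(1)`. -/
theorem two_sided (ε : ℝ) (hε : 0 < ε) : ∃ K : ℕ, ∀ k : ℕ, K ≤ k → ∀ b m : ℕ, 1 ≤ b →
    ((m ≤ b ∧ 2 ^ m < R k k → Good b m k) ∧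
      (Good b m k → 2 ^ m < R k k ∧ (m : ℝ) ≤ b * (k : ℝ) ^ ε)) := by
  obtain ⟨K, hK⟩ := words 2 ε hε
  refine ⟨K, fun k hk b m hb => ⟨fun h => good_of_lt h.1 h.2, fun h => ⟨lt_of_good h, ?_⟩⟩⟩
  obtain ⟨β, c, -, hc, hno⟩ := h
  by_contra hcon
  push Not at hcon
  exact hno (hK k hk m b hb β Bool c hc hcon.le)

end Pool.Agent.H782.Sym
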