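import Pool.Agent.H782.Sym.Johnson

set_option autoImplicit false

/-! Pairs of sets with the same intersection size are equivalent under permutations; consequences. -/

namespace Pool.Agent.H782.Sym

open Finset

lemma exists_perm_of_fibers {α T : Type} [Fintype α] [DecidableEq T] (f g : α → T)
    (h : ∀ c, (univ.filter (fun x => f x = c)).card = (univ.filter (fun x => g x = c)).card) :
    ∃ σ : Equiv.Perm α, ∀ x, g (σ x) = f x := by
  classical
  have e : ∀ c, Nonempty ({ a // f a = c } ≃ { b // g b = c }) := by
    intro c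
    apply Fintype.card_eq.1
    rw [Fintype.card_subtype, Fintype.card_subtype]
    exact h c
  exact ⟨Equiv.ofFiberEquiv (fun c => (e c).some), fun x => Equiv.ofFiberEquiv_map _ x⟩

lemma exists_perm_pair {α : Type} [Fintype α] [DecidableEq α] (A B A' B' : Finset α)
    (h1 : A.card = A'.card) (h2 : B.card = B'.card) (h3 : (A ∩ B).card = (A' ∩ B').card) :
    ∃ σ : Equiv.Perm α, A.map σ.toEmbedding = A' ∧ B.map σ.toEmbedding = B' := by
  classical
  obtain ⟨σ, hσ⟩ := exists_perm_of_fibers (fun x => (decide (x ∈ A), decide (x ∈ B)))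
    (fun x => (decide (x ∈ A'), decide (x ∈ B'))) (by
      rintro ⟨a, b⟩
      simp only [Prod.mk.injEq]
      have c1 := card_inter_add_card_sdiff A B
      have c2 := card_inter_add_card_sdiff B A
      have c1' := card_inter_add_card_sdiff A' B'
      have c2' := card_inter_add_card_sdiff B' A'
      have c3 := card_union_add_card_inter A B
      have c3' := card_union_add_card_inter A' B'
      have c4 := card_compl (A ∪ B)
      have c4' := card_compl (A' ∪ B')
      have hl := card_le_univ (A ∪ B)
      have hl' := card_le_univ (A' ∪ B')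
      rw [inter_comm B A] at c2
      rw [inter_comm B' A'] at c2'
      cases a <;> cases b
      · have e1 : (univ.filter (fun x => decide (x ∈ A) = false ∧ decide (x ∈ B) = false)) =
            (A ∪ B)ᶜ := by ext x; simp
        have e2 : (univ.filter (fun x => decide (x ∈ A') = false ∧ decide (x ∈ B') = false)) =
            (A' ∪ B')ᶜ := by ext x; simp
        rw [e1, e2]; omega
      · have e1 : (univ.filter (fun x => decide (x ∈ A) = false ∧ decide (x ∈ B) = true)) =
            B \ A := by ext x; simp [and_comm]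
        have e2 : (univ.filter (fun x => decide (x ∈ A') = false ∧ decide (x ∈ B') = true)) =
            B' \ A' := by ext x; simp [and_comm]
        rw [e1, e2]; omega
      · have e1 : (univ.filter (fun x => decide (x ∈ A) = true ∧ decide (x ∈ B) = false)) =
            A \ B := by ext x; simp
        have e2 : (univ.filter (fun x => decide (x ∈ A') = true ∧ decide (x ∈ B') = false)) =
            A' \ B' := by ext x; simp
        rw [e1, e2]; omega
      · have e1 : (univ.filter (fun x => decide (x ∈ A) = true ∧ decide (x ∈ B) = true)) =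
            A ∩ B := by ext x; simp
        have e2 : (univ.filter (fun x => decide (x ∈ A') = true ∧ decide (x ∈ B') = true)) =
            A' ∩ B' := by ext x; simp
        rw [e1, e2]; omega)
  have hA : ∀ x, σ x ∈ A' ↔ x ∈ A := by
    intro x
    have := congrArg Prod.fst (hσ x)
    simpa using this
  have hB : ∀ x, σ x ∈ B' ↔ x ∈ B := by
    intro x
    have := congrArg Prod.snd (hσ x)
    simpa using this
  refine ⟨σ, ?_, ?_⟩
  · ext y
    constructor
    · intro hy
      obtain ⟨x, hx, rfl⟩ := mem_map.1 hy
      exact (hA x).2 hx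
    · intro hy
      refine mem_map.2 ⟨σ.symm y, (hA _).1 (by simpa using hy), by simp⟩
  · ext y
    constructor
    · intro hy
      obtain ⟨x, hx, rfl⟩ := mem_map.1 hy
      exact (hB x).2 hx
    · intro hy
      refine mem_map.2 ⟨σ.symm y, (hB _).1 (by simpa using hy), by simp⟩

/-- The principle: a colouring with `t` colours of a set `X` which is invariant under all
permutations of `N` points, where `X` contains the `W`-subsets equivariantly. -/
theorem principle (t C : ℕ) : ∃ w : ℕ, ∀ N W : ℕ, w ≤ W → W + w ≤ N → ∀ (X : Type)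
    (E : Finset (Fin N) → X) (c : X → X → Fin t),
    (∀ (σ : Equiv.Perm (Fin N)) (A B : Finset (Fin N)), A.card = W → B.card = W →
      c (E (A.map σ.toEmbedding)) (E (B.map σ.toEmbedding)) = c (E A) (E B)) →
    ∃ S : Finset (Finset (Fin N)), (∀ A ∈ S, A.card = W) ∧ N ^ C ≤ S.card ∧
      ∃ col, ∀ A ∈ S, ∀ B ∈ S, A ≠ B → c (E A) (E B) = col := by
  classical
  obtain ⟨w, hw⟩ := johnson t C
  refine ⟨w, fun N W h1 h2 X E c hc => ?_⟩
  let f : ℕ → Fin t := fun j =>
    if h : ∃ p : Finset (Fin N) × Finset (Fin N), p.1.card = W ∧ p.2.card = W ∧ (p.1 ∩ p.2).card = j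
    then c (E h.choose.1) (E h.choose.2) else c (E ∅) (E ∅)
  have hf : ∀ A B : Finset (Fin N), A.card = W → B.card = W → c (E A) (E B) = f (A ∩ B).card := by
    intro A B hA hB
    have h : ∃ p : Finset (Fin N) × Finset (Fin N), p.1.card = W ∧ p.2.card = W ∧
      (p.1 ∩ p.2).card = (A ∩ B).card := ⟨(A, B), hA, hB, rfl⟩
    have hs := h.choose_spec
    have hfe : f (A ∩ B).card = c (E h.choose.1) (E h.choose.2) := by
      simp only [f]
      rw [dif_pos h]
    rw [hfe]
    obtain ⟨σ, hσ1, hσ2⟩ := exists_perm_pair h.choose.1 h.choose.2 A B (by rw [hs.1, hA])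
      (by rw [hs.2.1, hB]) hs.2.2
    have h3 := hc σ h.choose.1 h.choose.2 hs.1 hs.2.1
    rwa [hσ1, hσ2] at h3
  obtain ⟨S, hS1, hS2, col, hS3⟩ := hw N W h1 h2 f
  refine ⟨S, hS1, hS2, col, fun A hA B hB hAB => ?_⟩
  rw [hf A B (hS1 A hA) (hS1 B hB)]
  exact hS3 A hA B hB hAB

end Pool.Agent.H782.Sym
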