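import Pool.Agent.H782.Sym.Equivariant

set_option autoImplicit false

/-! The principle for colourings whose colours may be permuted by the symmetries. -/

namespace Pool.Agent.H782.Sym

open Finset

/-- image of a set under a permutation -/
def mv {N : ℕ} (σ : Equiv.Perm (Fin N)) (A : Finset (Fin N)) : Finset (Fin N) := A.map σ.toEmbedding

lemma mv_mul {N : ℕ} (σ τ : Equiv.Perm (Fin N)) (A : Finset (Fin N)) :
    mv (σ * τ) A = mv σ (mv τ A) := by
  unfold mv
  rw [map_map]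
  rfl

lemma mv_one {N : ℕ} (A : Finset (Fin N)) : mv 1 A = A := by
  exact map_refl

lemma card_mv {N : ℕ} (σ : Equiv.Perm (Fin N)) (A : Finset (Fin N)) : (mv σ A).card = A.card :=
  card_map _

lemma mv_ne {N : ℕ} (σ : Equiv.Perm (Fin N)) {A B : Finset (Fin N)} (h : A ≠ B) :
    mv σ A ≠ mv σ B := fun h' => h (map_injective _ h')

/-- the permutations that preserve the colours of the pairs of `W`-sets -/
def pres {N t : ℕ} (W : ℕ) (d : Finset (Fin N) → Finset (Fin N) → Fin t) :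
    Subgroup (Equiv.Perm (Fin N)) where
  carrier := {σ | ∀ A B : Finset (Fin N), A.card = W → B.card = W → A ≠ B →
    d (mv σ A) (mv σ B) = d A B}
  mul_mem' := by
    intro σ τ hσ hτ A B hA hB hAB
    rw [mv_mul, mv_mul, hσ _ _ (by rw [card_mv, hA]) (by rw [card_mv, hB]) (mv_ne τ hAB)]
    exact hτ A B hA hB hAB
  one_mem' := by
    intro A B _ _ _
    rw [mv_one, mv_one]
  inv_mem' := by
    intro σ hσ A B hA hB hAB
    have h := hσ (mv σ⁻¹ A) (mv σ⁻¹ B) (by rw [card_mv, hA]) (by rw [card_mv, hB]) (mv_ne _ hAB)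
    rw [← mv_mul, ← mv_mul, mul_inv_cancel, mv_one, mv_one] at h
    exact h.symm

lemma mem_pres {N t : ℕ} {W : ℕ} {d : Finset (Fin N) → Finset (Fin N) → Fin t}
    {σ : Equiv.Perm (Fin N)} : σ ∈ pres W d ↔ ∀ A B : Finset (Fin N), A.card = W → B.card = W →
      A ≠ B → d (mv σ A) (mv σ B) = d A B := Iff.rfl

/-- the hypothesis: every permutation permutes the colours -/
def UpToColours {N t : ℕ} (W : ℕ) (d : Finset (Fin N) → Finset (Fin N) → Fin t) : Prop :=
  ∀ σ : Equiv.Perm (Fin N), ∃ π : Equiv.Perm (Fin t), ∀ A B : Finset (Fin N), A.card = W →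
    B.card = W → A ≠ B → d (mv σ A) (mv σ B) = π (d A B)

lemma conj_mem {N t : ℕ} {W : ℕ} {d : Finset (Fin N) → Finset (Fin N) → Fin t}
    (h : UpToColours W d) {σ : Equiv.Perm (Fin N)} (hσ : σ ∈ pres W d) (ρ : Equiv.Perm (Fin N)) :
    ρ * σ * ρ⁻¹ ∈ pres W d := by
  rw [mem_pres] at hσ ⊢
  intro A B hA hB hAB
  obtain ⟨π, hπ⟩ := h ρ
  have h1 := hπ (mv σ (mv ρ⁻¹ A)) (mv σ (mv ρ⁻¹ B)) (by rw [card_mv, card_mv, hA])
    (by rw [card_mv, card_mv, hB]) (mv_ne _ (mv_ne _ hAB))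
  rw [hσ _ _ (by rw [card_mv, hA]) (by rw [card_mv, hB]) (mv_ne _ hAB)] at h1
  have h2 := hπ (mv ρ⁻¹ A) (mv ρ⁻¹ B) (by rw [card_mv, hA]) (by rw [card_mv, hB]) (mv_ne _ hAB)
  rw [← h2, ← mv_mul, ← mv_mul, ← mv_mul, ← mv_mul, ← mv_mul, ← mv_mul, mul_inv_cancel, mv_one,
    mv_one] at h1
  rw [mul_assoc]
  exact h1

lemma pow_mem' {N t : ℕ} {W : ℕ} {d : Finset (Fin N) → Finset (Fin N) → Fin t}
    (h : UpToColours W d) (σ : Equiv.Perm (Fin N)) :
    σ ^ (Fintype.card (Equiv.Perm (Fin t))) ∈ pres W d := by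
  obtain ⟨π, hπ⟩ := h σ
  have key : ∀ (n : ℕ) (A B : Finset (Fin N)), A.card = W → B.card = W → A ≠ B →
      d (mv (σ ^ n) A) (mv (σ ^ n) B) = (π ^ n) (d A B) := by
    intro n
    induction n with
    | zero =>
      intro A B _ _ _
      rw [pow_zero, pow_zero, mv_one, mv_one]
      rfl
    | succ n ih =>
      intro A B hA hB hAB
      rw [pow_succ', mv_mul, mv_mul, hπ _ _ (by rw [card_mv, hA]) (by rw [card_mv, hB])
        (mv_ne _ hAB), ih A B hA hB hAB, pow_succ', Equiv.Perm.mul_apply]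
  rw [mem_pres]
  intro A B hA hB hAB
  rw [key _ A B hA hB hAB, pow_card_eq_one]
  rfl

lemma mem_of_pow {G : Type} [Group G] (H : Subgroup G) (g : G) (p T : ℕ) (hp : g ^ p = 1)
    (hT : g ^ T ∈ H) (hc : Nat.Coprime p T) : g ∈ H := by
  have h1 : g ^ ((p : ℤ) * Nat.gcdA p T + (T : ℤ) * Nat.gcdB p T) = g := by
    rw [← Nat.gcd_eq_gcd_ab, hc]
    simp
  rw [← h1, zpow_add, zpow_mul, zpow_mul, zpow_natCast, zpow_natCast, hp, one_zpow, one_mul]
  exact H.zpow_mem hT _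

/-- a prime number that does not divide `t!` and is at least 5 -/
lemma exists_p (t : ℕ) : ∃ p : ℕ, p.Prime ∧ 5 ≤ p ∧
    Nat.Coprime p (Fintype.card (Equiv.Perm (Fin t))) := by
  obtain ⟨p, hp1, hp2⟩ := Nat.exists_infinite_primes (max 5 (t + 1))
  refine ⟨p, hp2, (le_max_left _ _).trans hp1, ?_⟩
  rw [Fintype.card_perm, Fintype.card_fin]
  exact hp2.coprime_factorial_of_lt (by have := le_max_right 5 (t + 1); omega)

/-- a normal subgroup containing all elements of order `p` contains the alternating group -/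
lemma alt_le {N p : ℕ} (hp : p.Prime) (hp5 : 5 ≤ p) (hN : p ≤ N)
    (H : Subgroup (Equiv.Perm (Fin N))) (hconj : ∀ σ ∈ H, ∀ ρ, ρ * σ * ρ⁻¹ ∈ H)
    (hpow : ∀ σ : Equiv.Perm (Fin N), σ ^ p = 1 → σ ∈ H) :
    ∀ σ : Equiv.Perm (Fin N), Equiv.Perm.sign σ = 1 → σ ∈ H := by
  classical
  have : NeZero p := ⟨hp.ne_zero⟩
  have : Fact (1 < p) := ⟨by omega⟩
  obtain ⟨ι⟩ : Nonempty (ZMod p ↪ Fin N) :=
    Function.Embedding.nonempty_of_card_le (by rw [ZMod.card, Fintype.card_fin]; exact hN)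
  set α : Equiv.Perm (Fin N) := Equiv.Perm.viaEmbeddingHom ι (Equiv.addRight (1 : ZMod p)) with hα
  have hα1 : ∀ x, α (ι x) = ι (x + 1) := by
    intro x
    exact Equiv.Perm.viaEmbedding_apply _ _ _
  have hpow' : ∀ n : ℕ, ∀ x : ZMod p, ((Equiv.addRight (1 : ZMod p)) ^ n) x = x + n := by
    intro n
    induction n with
    | zero => intro x; simp
    | succ n ih =>
      intro x
      rw [pow_succ', Equiv.Perm.mul_apply, ih]
      simp only [Equiv.coe_addRight]
      push_cast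
      ring
  have hαp : α ^ p = 1 := by
    rw [hα, ← map_pow]
    have : (Equiv.addRight (1 : ZMod p)) ^ p = 1 := by
      ext x
      rw [hpow']
      simp
    rw [this, map_one]
  have hαI : α ∈ H := hpow α hαp
  have h01 : (0 : ZMod p) ≠ 1 := zero_ne_one
  have h12 : (1 : ZMod p) ≠ 1 + 1 := by
    intro h
    exact h01 (by linear_combination h)
  have h02 : (0 : ZMod p) ≠ 1 + 1 := by
    intro h
    have h3 : ((2 : ℕ) : ZMod p) = 0 := by push_cast; linear_combination -h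
    rw [ZMod.natCast_eq_zero_iff] at h3
    have := Nat.le_of_dvd (by norm_num) h3
    omega
  set g : Equiv.Perm (Fin N) := Equiv.swap (ι 1) (ι (1 + 1)) * Equiv.swap (ι 1) (ι 0) with hg
  have hg3 : g.IsThreeCycle := by
    apply Equiv.Perm.isThreeCycle_swap_mul_swap_same
    · exact fun h => h12 (ι.injective h)
    · exact fun h => h01 (ι.injective h).symm
    · exact fun h => h02 (ι.injective h).symm
  have hgI : g ∈ H := by
    have h1 : g = α * (Equiv.swap (ι 0) (ι 1) * α⁻¹ * (Equiv.swap (ι 0) (ι 1))⁻¹) := by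
      have h5 : α * Equiv.swap (ι 0) (ι 1) = Equiv.swap (ι 1) (ι (1 + 1)) * α := by
        rw [Equiv.mul_swap_eq_swap_mul, hα1, hα1, zero_add]
      rw [Equiv.swap_inv, ← mul_assoc, ← mul_assoc, h5,
        mul_assoc (Equiv.swap (ι 1) (ι (1 + 1))) α α⁻¹, mul_inv_cancel, mul_one, hg,
        Equiv.swap_comm (ι 1) (ι 0)]
    rw [h1]
    exact H.mul_mem hαI (hconj _ (H.inv_mem hαI) _)
  have h3 : ∀ σ : Equiv.Perm (Fin N), σ.IsThreeCycle → σ ∈ H := by
    intro σ hσ
    obtain ⟨ρ, hρ⟩ := isConj_iff.1 (Equiv.Perm.isConj_iff_cycleType_eq.2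
      (by rw [hg3.cycleType, hσ.cycleType] : g.cycleType = σ.cycleType))
    rw [← hρ]
    exact hconj _ hgI ρ
  have h4 : alternatingGroup (Fin N) ≤ H := by
    rw [← Equiv.Perm.closure_three_cycles_eq_alternating, Subgroup.closure_le]
    intro σ hσ
    exact h3 σ hσ
  intro σ hσ
  exact h4 (Equiv.Perm.mem_alternatingGroup.2 hσ)

/-- all even permutations preserve the colours -/
lemma exists_even (t : ℕ) : ∃ p : ℕ, 5 ≤ p ∧ ∀ N W : ℕ, p ≤ N →
    ∀ d : Finset (Fin N) → Finset (Fin N) → Fin t, UpToColours W d →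
    ∀ σ : Equiv.Perm (Fin N), Equiv.Perm.sign σ = 1 → σ ∈ pres W d := by
  obtain ⟨p, hp, hp5, hpc⟩ := exists_p t
  refine ⟨p, hp5, fun N W hN d h => ?_⟩
  exact alt_le hp hp5 hN (pres W d) (fun σ hσ ρ => conj_mem h hσ ρ)
    (fun σ hσ => mem_of_pow _ σ p _ hσ (pow_mem' h σ) hpc)

/-- pairs with the same intersection size are equivalent under even permutations -/
lemma exists_even_pair {N : ℕ} (hN : 5 ≤ N) (A B A' B' : Finset (Fin N))
    (h1 : A.card = A'.card) (h2 : B.card = B'.card) (h3 : (A ∩ B).card = (A' ∩ B').card) :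
    ∃ σ : Equiv.Perm (Fin N), Equiv.Perm.sign σ = 1 ∧ mv σ A = A' ∧ mv σ B = B' := by
  classical
  obtain ⟨σ, hσ1, hσ2⟩ := exists_perm_pair A B A' B' h1 h2 h3
  rcases Int.units_eq_one_or (Equiv.Perm.sign σ) with hs | hs
  · exact ⟨σ, hs, hσ1, hσ2⟩
  · obtain ⟨x, y, hxy, hf⟩ := Fintype.exists_ne_map_eq_of_card_lt
      (fun x : Fin N => (decide (x ∈ A'), decide (x ∈ B'))) (by
        rw [Fintype.card_prod, Fintype.card_bool, Fintype.card_fin]; omega)
    rw [Prod.mk.injEq] at hf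
    have hA : x ∈ A' ↔ y ∈ A' := by simpa using hf.1
    have hB : x ∈ B' ↔ y ∈ B' := by simpa using hf.2
    have key : ∀ Z : Finset (Fin N), (x ∈ Z ↔ y ∈ Z) → mv (Equiv.swap x y) Z = Z := by
      intro Z hZ
      ext z
      unfold mv
      rw [mem_map_equiv, Equiv.symm_swap]
      by_cases hzx : z = x
      · rw [hzx, Equiv.swap_apply_left]; exact hZ.symm
      · by_cases hzy : z = y
        · rw [hzy, Equiv.swap_apply_right]; exact hZ
        · rw [Equiv.swap_apply_of_ne_of_ne hzx hzy]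
    refine ⟨Equiv.swap x y * σ, ?_, ?_, ?_⟩
    · rw [Equiv.Perm.sign_mul, Equiv.Perm.sign_swap hxy, hs]
      rfl
    · rw [mv_mul]
      have : mv σ A = A' := hσ1
      rw [this]
      exact key A' hA
    · rw [mv_mul]
      have : mv σ B = B' := hσ2
      rw [this]
      exact key B' hB

/-- The principle, with colours permuted. -/
theorem principle' (t C : ℕ) : ∃ w : ℕ, ∀ N W : ℕ, w ≤ W → W + w ≤ N → ∀ (X : Type)
    (E : Finset (Fin N) → X) (c : X → X → Fin t),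
    UpToColours W (fun A B => c (E A) (E B)) →
    ∃ S : Finset (Finset (Fin N)), (∀ A ∈ S, A.card = W) ∧ N ^ C ≤ S.card ∧
      ∃ col, ∀ A ∈ S, ∀ B ∈ S, A ≠ B → c (E A) (E B) = col := by
  classical
  obtain ⟨w, hw⟩ := johnson t C
  obtain ⟨p, hp5, hp⟩ := exists_even t
  refine ⟨max w p, fun N W h1 h2 X E c hc => ?_⟩
  have hwp := le_max_left w p
  have hwp' := le_max_right w p
  have hev := hp N W (by omega) _ hc
  let f : ℕ → Fin t := fun j =>
    if h : ∃ q : Finset (Fin N) × Finset (Fin N), q.1.card = W ∧ q.2.card = W ∧ q.1 ≠ q.2 ∧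
      (q.1 ∩ q.2).card = j
    then c (E h.choose.1) (E h.choose.2) else c (E ∅) (E ∅)
  have hf : ∀ A B : Finset (Fin N), A.card = W → B.card = W → A ≠ B →
      c (E A) (E B) = f (A ∩ B).card := by
    intro A B hA hB hAB
    have h : ∃ q : Finset (Fin N) × Finset (Fin N), q.1.card = W ∧ q.2.card = W ∧ q.1 ≠ q.2 ∧
      (q.1 ∩ q.2).card = (A ∩ B).card := ⟨(A, B), hA, hB, hAB, rfl⟩
    have hs := h.choose_spec
    have hfe : f (A ∩ B).card = c (E h.choose.1) (E h.choose.2) := by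
      simp only [f]
      rw [dif_pos h]
    rw [hfe]
    obtain ⟨σ, hσ0, hσ1, hσ2⟩ := exists_even_pair (by omega) h.choose.1 h.choose.2 A B
      (by rw [hs.1, hA]) (by rw [hs.2.1, hB]) hs.2.2.2
    have h3 := mem_pres.1 (hev σ hσ0) h.choose.1 h.choose.2 hs.1 hs.2.1 hs.2.2.1
    rw [hσ1, hσ2] at h3
    exact h3
  obtain ⟨S, hS1, hS2, col, hS3⟩ := hw N W (by omega) (by omega) f
  refine ⟨S, hS1, hS2, col, fun A hA B hB hAB => ?_⟩
  rw [hf A B (hS1 A hA) (hS1 B hB) hAB]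
  exact hS3 A hA B hB hAB

end Pool.Agent.H782.Sym
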