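import Mathlib

set_option autoImplicit false

/-! A finite form of Hindman's theorem (Folkman's theorem), by compactness. -/

namespace Pool.Agent.H782.Sym

open Hindman

lemma pos_of_mem_FS_one {x : ℕ} (a : Stream' ℕ) (ha : ∀ i, 0 < a.get i) (h : x ∈ FS a) : 0 < x := by
  induction h with
  | head' a => exact ha 0
  | tail' a m _ ih => exact ih fun i => ha (i + 1)
  | cons' a m _ ih => exact Nat.add_pos_left (ha 0) m

/-- Infinite form: every colouring of the positive integers with finitely many colours has a sequence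
of positive integers all of whose finite sums have the same colour. -/
lemma hindman_nat {t : ℕ} (f : ℕ → Fin t) :
    ∃ (a : ℕ → ℕ) (col : Fin t), (∀ j, 0 < a j) ∧
      ∀ J : Finset ℕ, J.Nonempty → f (∑ j ∈ J, a j) = col := by
  classical
  let S : Set (Set ℕ) := Set.range (fun col : Fin t => {x | f x = col ∧ 0 < x})
  have hS : S.Finite := Set.finite_range _
  have hcov : FS (Stream'.const 1) ⊆ ⋃₀ S := by
    intro x hx
    refine ⟨{y | f y = f x ∧ 0 < y}, ⟨f x, rfl⟩, rfl, ?_⟩
    exact pos_of_mem_FS_one _ (fun i => by simp) hx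
  obtain ⟨c, ⟨col, rfl⟩, a, ha⟩ := FS_partition_regular (Stream'.const 1) S hS hcov
  refine ⟨fun j => a.get j, col, fun j => ?_, fun J hJ => ?_⟩
  · exact (ha (FS.singleton a j)).2
  · exact (ha (FS.finsetSum a J hJ)).1

/-- **Folkman's theorem**, finite form: for all `t` and `s` there is `F` such that for every
colouring of the integers with `t` colours there are `s` integers between `1` and `F` all of whose
nonempty sums have the same colour. -/
theorem folkman (t s : ℕ) : ∃ F : ℕ, ∀ f : ℕ → Fin t, ∃ (a : Fin s → ℕ) (col : Fin t),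
    (∀ j, 0 < a j) ∧ (∀ j, a j ≤ F) ∧
      ∀ J : Finset (Fin s), J.Nonempty → f (∑ j ∈ J, a j) = col := by
  classical
  by_contra hcon
  push Not at hcon
  choose f hf using hcon
  let U : Ultrafilter ℕ := Filter.hyperfilter ℕ
  have key : ∀ x : ℕ, ∃ col : Fin t, ∀ᶠ F in (U : Filter ℕ), f F x = col := by
    intro x
    obtain ⟨col, hcol⟩ := Ultrafilter.eq_pure_of_finite (U.map (fun F => f F x))
    refine ⟨col, ?_⟩
    have h1 : {col} ∈ (U.map (fun F => f F x)) := by rw [hcol]; exact Ultrafilter.mem_pure.2 rfl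
    exact h1
  choose g hg using key
  obtain ⟨a, col, ha, hJ⟩ := hindman_nat g
  have h1 : ∀ᶠ F in (U : Filter ℕ), ∀ J : Finset (Fin s), f F (∑ j ∈ J, a j) = g (∑ j ∈ J, a j) := by
    rw [Filter.eventually_all]
    intro J
    exact hg _
  have h2 : ∀ᶠ F in (U : Filter ℕ), (∑ j : Fin s, a j) ≤ F := by
    have : ∀ᶠ F in Filter.cofinite, (∑ j : Fin s, a j) ≤ F := by
      rw [Nat.cofinite_eq_atTop]
      exact Filter.eventually_ge_atTop _
    exact Filter.hyperfilter_le_cofinite this
  obtain ⟨F, hF1, hF2⟩ := (h1.and h2).exists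
  obtain ⟨J, hJne, hJ2⟩ := hf F (fun j => a j) col (fun j => ha j)
    (fun j => (Finset.single_le_sum (f := fun j : Fin s => a j) (fun _ _ => Nat.zero_le _)
      (Finset.mem_univ j)).trans hF2)
  apply hJ2
  rw [hF1 J]
  have := hJ (J.map Fin.valEmbedding) (by simpa using hJne)
  rwa [Finset.sum_map] at this

end Pool.Agent.H782.Sym
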