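import Pool.Agent.H782.Sym.Words

set_option autoImplicit false

/-! Colourings of the pairs of elements of a group containing a symmetric group, invariant under left
and right multiplication. -/

namespace Pool.Agent.H782.Sym

open Finset

/-- the points moved by the rotations -/
abbrev Pt (s q M : ℕ) : Type := Fin s × ZMod q × Fin M

/-- the rotation by `u`: in part `j` the first `a j` cycles are rotated by `u j` -/
def rot {s q M : ℕ} (a : Fin s → ℕ) (u : Fin s → ZMod q) : Equiv.Perm (Pt s q M) where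
  toFun p := (p.1, (if (p.2.2 : ℕ) < a p.1 then p.2.1 + u p.1 else p.2.1), p.2.2)
  invFun p := (p.1, (if (p.2.2 : ℕ) < a p.1 then p.2.1 - u p.1 else p.2.1), p.2.2)
  left_inv p := by
    rcases p with ⟨j, v, i⟩
    simp only
    split_ifs <;> simp
  right_inv p := by
    rcases p with ⟨j, v, i⟩
    simp only
    split_ifs <;> simp

lemma rot_apply {s q M : ℕ} (a : Fin s → ℕ) (u : Fin s → ZMod q) (p : Pt s q M) :
    rot a u p = (p.1, (if (p.2.2 : ℕ) < a p.1 then p.2.1 + u p.1 else p.2.1), p.2.2) := rfl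

lemma rot_mul {s q M : ℕ} (a : Fin s → ℕ) (u v : Fin s → ZMod q) :
    (rot a u * rot a v : Equiv.Perm (Pt s q M)) = rot a (u + v) := by
  apply Equiv.ext
  rintro ⟨j, x, i⟩
  rw [Equiv.Perm.mul_apply, rot_apply, rot_apply, rot_apply]
  simp only [Pi.add_apply]
  split_ifs
  · congr 2; ring
  · rfl

lemma rot_zero {s q M : ℕ} (a : Fin s → ℕ) : (rot a 0 : Equiv.Perm (Pt s q M)) = 1 := by
  apply Equiv.ext
  rintro ⟨j, x, i⟩
  rw [rot_apply]
  simp

lemma rot_inv_mul {s q M : ℕ} (a : Fin s → ℕ) (u v : Fin s → ZMod q) :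
    ((rot a u)⁻¹ * rot a v : Equiv.Perm (Pt s q M)) = rot a (v - u) := by
  rw [inv_mul_eq_iff_eq_mul, rot_mul]
  congr 1
  ring

lemma rot_pow {s q M : ℕ} (a : Fin s → ℕ) (u : Fin s → ZMod q) (n : ℕ) :
    ((rot a u) ^ n : Equiv.Perm (Pt s q M)) = rot a (n • u) := by
  induction n with
  | zero => rw [pow_zero, zero_smul, rot_zero]
  | succ n ih => rw [pow_succ, ih, rot_mul, succ_nsmul]

lemma rot_pow_q {s q M : ℕ} (a : Fin s → ℕ) (u : Fin s → ZMod q) :
    ((rot a u) ^ q : Equiv.Perm (Pt s q M)) = 1 := by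
  rw [rot_pow, ← rot_zero a]
  congr 1
  funext j
  simp

lemma rot_ne {s q M : ℕ} (a : Fin s → ℕ) (u : Fin s → ZMod q) (p : Pt s q M) :
    rot a u p ≠ p ↔ ((p.2.2 : ℕ) < a p.1 ∧ u p.1 ≠ 0) := by
  rcases p with ⟨j, v, i⟩
  rw [rot_apply]
  simp only [ne_eq, Prod.mk.injEq, true_and, and_true]
  split_ifs with h
  · simp [h]
  · simp [h]

lemma card_support_rot {s q M : ℕ} [NeZero q] (a : Fin s → ℕ) (haM : ∀ j, a j ≤ M)
    (u : Fin s → ZMod q) :
    (rot a u : Equiv.Perm (Pt s q M)).support.card =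
      q * ∑ j ∈ univ.filter (fun j => u j ≠ 0), a j := by
  classical
  have h1 : (rot a u : Equiv.Perm (Pt s q M)).support =
      univ.filter (fun p : Pt s q M => (p.2.2 : ℕ) < a p.1 ∧ u p.1 ≠ 0) := by
    ext p
    rw [Equiv.Perm.mem_support, rot_ne, mem_filter]
    simp
  rw [h1, card_filter, Fintype.sum_prod_type, mul_sum, sum_filter]
  refine sum_congr rfl fun j _ => ?_
  rw [Fintype.sum_prod_type]
  split_ifs with h
  · have h2 : ∀ x : ZMod q, ∑ y : Fin M, (if ((y : ℕ) < a j ∧ u j ≠ 0) then 1 else 0) = a j := by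
      intro x
      simp only [h, ne_eq, not_false_eq_true, and_true]
      rw [← card_filter]
      exact card_lt_fin M (a j) (haM j)
    simp only
    rw [sum_congr rfl fun x _ => h2 x, sum_const, card_univ, ZMod.card, smul_eq_mul]
  · apply sum_eq_zero
    intro x _
    apply sum_eq_zero
    intro i _
    simp [h]

lemma cycleType_rot {s q M : ℕ} [NeZero q] (hq : q.Prime) (a : Fin s → ℕ) (ha0 : ∀ j, 0 < a j)
    (haM : ∀ j, a j ≤ M) (u : Fin s → ZMod q) (hu : u ≠ 0) :
    (rot a u : Equiv.Perm (Pt s q M)).cycleType =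
      Multiset.replicate (∑ j ∈ univ.filter (fun j => u j ≠ 0), a j) q := by
  classical
  obtain ⟨j, hj⟩ := Function.ne_iff.1 hu
  have hne : (rot a u : Equiv.Perm (Pt s q M)) ≠ 1 := by
    intro h
    have h1 : rot a u ((j, 0, ⟨0, lt_of_lt_of_le (ha0 j) (haM j)⟩) : Pt s q M) ≠
        (j, 0, ⟨0, lt_of_lt_of_le (ha0 j) (haM j)⟩) := by
      rw [rot_ne]
      exact ⟨ha0 j, hj⟩
    rw [h] at h1
    exact h1 rfl
  have : Fact q.Prime := ⟨hq⟩
  have hord : orderOf (rot a u : Equiv.Perm (Pt s q M)) = q :=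
    orderOf_eq_prime (rot_pow_q a u) hne
  obtain ⟨n, hn⟩ := Equiv.Perm.cycleType_prime_order (σ := (rot a u : Equiv.Perm (Pt s q M)))
    (by rw [hord]; exact hq)
  rw [hord] at hn
  have hs := Equiv.Perm.sum_cycleType (rot a u : Equiv.Perm (Pt s q M))
  rw [hn, Multiset.sum_replicate, card_support_rot a haM u, smul_eq_mul, mul_comm] at hs
  have hn' := Nat.eq_of_mul_eq_mul_left hq.pos hs
  rw [hn, ← hn']

/-- The subgroup of the `σ` such that conjugation by `σ` preserves the colour of `{1, τ}`. -/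
lemma conj_alt {t N p : ℕ} (hp : p.Prime) (hp5 : 5 ≤ p)
    (hpc : Nat.Coprime p (Fintype.card (Equiv.Perm (Fin t)))) (hN : p ≤ N) {G : Type} [Group G]
    (φ : Equiv.Perm (Fin N) →* G) (hφ : Function.Injective φ) (c : G → G → Fin t)
    (hl : ∀ g, ∃ π : Equiv.Perm (Fin t), ∀ x y, x ≠ y → c (g * x) (g * y) = π (c x y))
    (hr : ∀ g, ∃ π : Equiv.Perm (Fin t), ∀ x y, x ≠ y → c (x * g) (y * g) = π (c x y)) :
    ∀ σ : Equiv.Perm (Fin N), Equiv.Perm.sign σ = 1 → ∀ τ : Equiv.Perm (Fin N), τ ≠ 1 →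
      c 1 (φ (σ * τ * σ⁻¹)) = c 1 (φ τ) := by
  classical
  have hne : ∀ σ τ : Equiv.Perm (Fin N), τ ≠ 1 → σ * τ * σ⁻¹ ≠ 1 := by
    intro σ τ h h'
    apply h
    have h1 : τ = σ⁻¹ * (σ * τ * σ⁻¹) * σ := by group
    rw [h1, h']
    group
  have hφ1 : ∀ τ : Equiv.Perm (Fin N), τ ≠ 1 → (1 : G) ≠ φ τ := by
    intro τ h h'
    apply h
    apply hφ
    rw [map_one]
    exact h'.symm
  let H : Subgroup (Equiv.Perm (Fin N)) :=
    { carrier := {σ | ∀ τ : Equiv.Perm (Fin N), τ ≠ 1 → c 1 (φ (σ * τ * σ⁻¹)) = c 1 (φ τ)}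
      mul_mem' := by
        intro σ ρ hσ hρ τ hτ
        have h1 : σ * ρ * τ * (σ * ρ)⁻¹ = σ * (ρ * τ * ρ⁻¹) * σ⁻¹ := by group
        rw [h1, hσ _ (hne ρ τ hτ), hρ τ hτ]
      one_mem' := by
        intro τ _
        simp
      inv_mem' := by
        intro σ hσ τ hτ
        have h := hσ (σ⁻¹ * τ * σ⁻¹⁻¹) (hne σ⁻¹ τ hτ)
        have h1 : σ * (σ⁻¹ * τ * σ⁻¹⁻¹) * σ⁻¹ = τ := by group
        rw [h1] at h
        exact h.symm }
  have hH : ∀ σ : Equiv.Perm (Fin N), σ ∈ H ↔ ∀ τ : Equiv.Perm (Fin N), τ ≠ 1 →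
      c 1 (φ (σ * τ * σ⁻¹)) = c 1 (φ τ) := fun σ => Iff.rfl
  have hπ : ∀ σ : Equiv.Perm (Fin N), ∃ π : Equiv.Perm (Fin t), ∀ τ : Equiv.Perm (Fin N), τ ≠ 1 →
      c 1 (φ (σ * τ * σ⁻¹)) = π (c 1 (φ τ)) := by
    intro σ
    obtain ⟨π1, h1⟩ := hl (φ σ)
    obtain ⟨π2, h2⟩ := hr (φ σ⁻¹)
    refine ⟨π2 * π1, fun τ hτ => ?_⟩
    have h3 := h1 1 (φ τ) (hφ1 τ hτ)
    have h4 := h2 (φ σ * 1) (φ σ * φ τ) (by
      intro h
      exact hφ1 τ hτ (mul_left_cancel h))
    rw [h3, mul_one, ← map_mul, mul_inv_cancel, map_one, ← map_mul, ← map_mul] at h4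
    rw [h4, Equiv.Perm.mul_apply]
  have hconj : ∀ σ ∈ H, ∀ ρ, ρ * σ * ρ⁻¹ ∈ H := by
    intro σ hσ ρ
    rw [hH] at hσ ⊢
    intro τ hτ
    obtain ⟨π, h⟩ := hπ ρ
    have h1 : ρ * σ * ρ⁻¹ * τ * (ρ * σ * ρ⁻¹)⁻¹ = ρ * (σ * (ρ⁻¹ * τ * ρ⁻¹⁻¹) * σ⁻¹) * ρ⁻¹ := by
      group
    have h2 := h (ρ⁻¹ * τ * ρ⁻¹⁻¹) (hne _ _ hτ)
    have h3 : ρ * (ρ⁻¹ * τ * ρ⁻¹⁻¹) * ρ⁻¹ = τ := by group
    rw [h3] at h2
    rw [h1, h _ (hne _ _ (hne _ _ hτ)), hσ _ (hne _ _ hτ), ← h2]
  have hpow : ∀ σ : Equiv.Perm (Fin N), σ ^ p = 1 → σ ∈ H := by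
    intro σ hσ
    refine mem_of_pow H σ p _ hσ ?_ hpc
    rw [hH]
    obtain ⟨π, h⟩ := hπ σ
    have key : ∀ (n : ℕ) (τ : Equiv.Perm (Fin N)), τ ≠ 1 →
        c 1 (φ (σ ^ n * τ * (σ ^ n)⁻¹)) = (π ^ n) (c 1 (φ τ)) := by
      intro n
      induction n with
      | zero =>
        intro τ _
        simp
      | succ n ih =>
        intro τ hτ
        have h1 : σ ^ (n + 1) * τ * (σ ^ (n + 1))⁻¹ = σ * (σ ^ n * τ * (σ ^ n)⁻¹) * σ⁻¹ := by
          rw [pow_succ']
          group
        rw [h1, h _ (hne _ _ hτ), ih τ hτ, pow_succ', Equiv.Perm.mul_apply]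
    intro τ hτ
    rw [key _ τ hτ, pow_card_eq_one]
    rfl
  exact fun σ hσ => (hH σ).1 (alt_le hp hp5 hN H hconj hpow σ hσ)

/-- **Groups.** For every number of colours `t` and every `C`: if `N` is large and the group `G`
contains the symmetric group on `N` points, every colouring of the pairs of elements of `G` with `t`
colours whose colour classes are permuted by all left and right multiplications has a monochromatic
set of size `N ^ C`. -/
theorem groups (t C : ℕ) : ∃ N₀ : ℕ, ∀ N : ℕ, N₀ ≤ N → ∀ (G : Type) [Group G]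
    (φ : Equiv.Perm (Fin N) →* G), Function.Injective φ → ∀ c : G → G → Fin t,
    (∀ g, ∃ π : Equiv.Perm (Fin t), ∀ x y, x ≠ y → c (g * x) (g * y) = π (c x y)) →
    (∀ g, ∃ π : Equiv.Perm (Fin t), ∀ x y, x ≠ y → c (x * g) (y * g) = π (c x y)) →
    HasMono c (N ^ C) := by
  classical
  obtain ⟨p, hp, hp5, hpc⟩ := exists_p t
  obtain ⟨F, hF⟩ := folkman t (C + 1)
  set s := C + 1 with hs
  set M := F + 1 with hM
  set K := s * M with hK
  have hK1 : 1 ≤ K := Nat.mul_pos (by omega) (by omega)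
  refine ⟨max ((4 * K) ^ s) ((t + p + 1) * (4 * K)), fun N hN' G _ φ hφ c hl hr => ?_⟩
  have hN : (4 * K) ^ s ≤ N := (le_max_left _ _).trans hN'
  have hNt : (t + p + 1) * (4 * K) ≤ N := (le_max_right _ _).trans hN'
  have hNp : p ≤ N := by nlinarith
  have hKw : 4 * K ≤ (4 * K) ^ s := Nat.le_self_pow (by omega) _
  set n := N / (2 * K) with hn
  have hn1 : n * (2 * K) ≤ N := Nat.div_mul_le_self _ _
  have hn2 : N < (n + 1) * (2 * K) := by
    have := Nat.lt_div_mul_add (a := N) (b := 2 * K) (by omega)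
    rw [← hn] at this
    nlinarith
  have hn3 : t + p + 1 ≤ n := by
    rw [hn, Nat.le_div_iff_mul_le (by omega)]
    nlinarith
  obtain ⟨q, hq, hq1, hq2⟩ := Nat.exists_prime_lt_and_le_two_mul n (by omega)
  have : NeZero q := ⟨hq.ne_zero⟩
  have : Fact q.Prime := ⟨hq⟩
  have hqc : Nat.Coprime q (Fintype.card (Equiv.Perm (Fin t))) := by
    rw [Fintype.card_perm, Fintype.card_fin]
    exact hq.coprime_factorial_of_lt (by omega)
  -- the embedding
  have hcard : s * (q * M) ≤ N := by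
    have : s * (q * M) = q * K := by rw [hK]; ring
    rw [this]
    calc q * K ≤ 2 * n * K := Nat.mul_le_mul_right _ hq2
      _ = n * (2 * K) := by ring
      _ ≤ N := hn1
  have hcardP : Fintype.card (Pt s q M) ≤ N := by
    simp only [Pt, Fintype.card_prod, Fintype.card_fin, ZMod.card]
    exact hcard
  obtain ⟨ι⟩ : Nonempty (Pt s q M ↪ Fin N) :=
    Function.Embedding.nonempty_of_card_le (by rw [Fintype.card_fin]; exact hcardP)
  let ψ : Equiv.Perm (Pt s q M) →* Equiv.Perm (Fin N) := Equiv.Perm.viaEmbeddingHom ι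
  have hψ : Function.Injective ψ := Equiv.Perm.viaEmbeddingHom_injective ι
  have hcyc : ∀ σ : Equiv.Perm (Pt s q M), (ψ σ).cycleType = σ.cycleType := by
    intro σ
    have h1 : ∀ (inst : DecidablePred fun b => b ∈ Set.range ι.toFun),
        (@Equiv.Perm.extendDomain _ _ σ _ inst (Equiv.ofInjective ι.1 ι.2)).cycleType =
          σ.cycleType := by
      intro inst
      exact Equiv.Perm.cycleType_extendDomain _
    exact h1 _
  -- elements with the same cycle type have the same colour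
  have hsame : ∀ A : ℕ, 1 ≤ A → A * q + 2 ≤ N → ∀ σ τ : Equiv.Perm (Fin N),
      σ.cycleType = Multiset.replicate A q → τ.cycleType = Multiset.replicate A q →
      c 1 (φ σ) = c 1 (φ τ) := by
    intro A hA hAN σ τ hσ hτ
    obtain ⟨g, hg⟩ := isConj_iff.1 (Equiv.Perm.isConj_iff_cycleType_eq.2 (hσ.trans hτ.symm))
    have hσ1 : σ ≠ 1 := by
      intro h
      rw [h, Equiv.Perm.cycleType_one] at hσ
      have := congrArg Multiset.card hσ
      rw [Multiset.card_zero, Multiset.card_replicate] at this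
      omega
    have hsupp : τ.support.card = A * q := by
      rw [← Equiv.Perm.sum_cycleType, hτ, Multiset.sum_replicate, smul_eq_mul]
    have hfix : 1 < (τ.supportᶜ).card := by
      rw [card_compl, hsupp, Fintype.card_fin]
      omega
    obtain ⟨x, hx, y, hy, hxy⟩ := one_lt_card.1 hfix
    rw [mem_compl, Equiv.Perm.notMem_support] at hx hy
    have hcomm : Equiv.swap x y * τ * (Equiv.swap x y)⁻¹ = τ := by
      rw [mul_inv_eq_iff_eq_mul, Equiv.mul_swap_eq_swap_mul, hx, hy]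
    rcases Int.units_eq_one_or (Equiv.Perm.sign g) with hs | hs
    · have h1 := conj_alt hp hp5 hpc hNp φ hφ c hl hr g hs σ hσ1
      rw [hg] at h1
      exact h1.symm
    · have h1 := conj_alt hp hp5 hpc hNp φ hφ c hl hr (Equiv.swap x y * g) (by
        rw [Equiv.Perm.sign_mul, Equiv.Perm.sign_swap hxy, hs]; rfl) σ hσ1
      have h2 : Equiv.swap x y * g * σ * (Equiv.swap x y * g)⁻¹ = τ := by
        rw [mul_inv_rev, ← hcomm, ← hg]
        group
      rw [h2] at h1
      exact h1.symm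
  let f : ℕ → Fin t := fun A =>
    if h : ∃ τ : Equiv.Perm (Fin N), τ.cycleType = Multiset.replicate A q then
      c 1 (φ h.choose) else c 1 1
  have hf : ∀ (A : ℕ) (τ : Equiv.Perm (Fin N)), 1 ≤ A → A * q + 2 ≤ N →
      τ.cycleType = Multiset.replicate A q → c 1 (φ τ) = f A := by
    intro A τ hA hAN hτ
    have h : ∃ τ : Equiv.Perm (Fin N), τ.cycleType = Multiset.replicate A q := ⟨τ, hτ⟩
    simp only [f]
    rw [dif_pos h]
    exact hsame A hA hAN _ _ hτ h.choose_spec
  obtain ⟨a, col, ha0, haF, hcol⟩ := hF f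
  have haM : ∀ j, a j ≤ M := fun j => (haF j).trans (by omega)
  let π : (Fin s → ZMod q) → G := fun u => φ (ψ (rot a u))
  have hinj : Function.Injective π := by
    intro u v huv
    by_contra hne
    have h1 : (rot a u : Equiv.Perm (Pt s q M)) = rot a v := hψ (hφ huv)
    have hne' : v - u ≠ 0 := sub_ne_zero.2 (Ne.symm hne)
    have h2 := cycleType_rot hq a ha0 haM (v - u) hne'
    rw [← rot_inv_mul, h1, inv_mul_cancel, Equiv.Perm.cycleType_one] at h2
    obtain ⟨j, hj⟩ := Function.ne_iff.1 hne'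
    have h3 : a j ≤ ∑ j ∈ univ.filter (fun j => (v - u) j ≠ 0), a j :=
      single_le_sum (fun _ _ => Nat.zero_le _) (by simpa using hj)
    have h4 := ha0 j
    have h5 := congrArg Multiset.card h2
    rw [Multiset.card_zero, Multiset.card_replicate] at h5
    omega
  -- left multiplication by the rotations preserves the colours
  have hleft : ∀ u, ∀ x y, x ≠ y → c (π u * x) (π u * y) = c x y := by
    intro u
    let L : Subgroup G :=
      { carrier := {g | ∀ x y, x ≠ y → c (g * x) (g * y) = c x y}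
        mul_mem' := by
          intro g h hg hh x y hxy
          rw [mul_assoc, mul_assoc, hg _ _ (fun e => hxy (mul_left_cancel e)), hh x y hxy]
        one_mem' := by
          intro x y _
          rw [one_mul, one_mul]
        inv_mem' := by
          intro g hg x y hxy
          have h := hg (g⁻¹ * x) (g⁻¹ * y) (fun e => hxy (mul_left_cancel e))
          rw [mul_inv_cancel_left, mul_inv_cancel_left] at h
          exact h.symm }
    have hL : π u ∈ L := by
      refine mem_of_pow L (π u) q _ ?_ ?_ hqc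
      · simp only [π]
        rw [← map_pow, ← map_pow, rot_pow_q, map_one, map_one]
      · obtain ⟨θ, hθ⟩ := hl (π u)
        have key : ∀ (n : ℕ) (x y : G), x ≠ y → c (π u ^ n * x) (π u ^ n * y) =
            (θ ^ n) (c x y) := by
          intro n
          induction n with
          | zero => intro x y _; simp
          | succ n ih =>
            intro x y hxy
            rw [pow_succ', mul_assoc, mul_assoc, hθ _ _ (fun e => hxy (mul_left_cancel e)),
              ih x y hxy, pow_succ', Equiv.Perm.mul_apply]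
        intro x y hxy
        rw [key _ x y hxy, pow_card_eq_one]
        rfl
    exact hL
  have hcπ : ∀ u v, u ≠ v → c (π u) (π v) = col := by
    intro u v huv
    have h1 : c (π u) (π v) = c 1 (φ (ψ (rot a (v - u)))) := by
      have h2 := hleft u 1 (φ (ψ (rot a (v - u)))) (by
        intro h
        apply huv
        apply hinj
        rw [← rot_inv_mul, map_mul, map_mul, map_inv, map_inv] at h
        exact (inv_mul_eq_one.1 h.symm))
      rw [← h2, mul_one]
      congr 1
      simp only [π]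
      rw [← map_mul, ← map_mul, rot_mul]
      congr 2
      congr 1
      ring
    have hne : v - u ≠ 0 := sub_ne_zero.2 huv.symm
    obtain ⟨j, hj⟩ := Function.ne_iff.1 hne
    have hjm : j ∈ univ.filter (fun j => (v - u) j ≠ 0) := by simpa using hj
    have hct := cycleType_rot hq a ha0 haM (v - u) hne
    rw [h1, hf _ _ ?_ ?_ ((hcyc _).trans hct)]
    · exact hcol _ ⟨j, hjm⟩
    · have h3 : a j ≤ ∑ j ∈ univ.filter (fun j => (v - u) j ≠ 0), a j :=
        single_le_sum (fun _ _ => Nat.zero_le _) hjm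
      have h4 := ha0 j
      omega
    · have h3 : ∑ j ∈ univ.filter (fun j => (v - u) j ≠ 0), a j ≤ ∑ _j : Fin s, F :=
        (sum_le_sum_of_subset (filter_subset _ _)).trans (sum_le_sum fun j _ => haF j)
      rw [sum_const, card_univ, Fintype.card_fin, smul_eq_mul] at h3
      have h4 : 2 ≤ q := hq.two_le
      have h5 : s * F * q + s * q = s * (q * M) := by rw [hM]; ring
      have h6 : 2 ≤ s * q := by nlinarith
      have h7 : (∑ j ∈ univ.filter (fun j => (v - u) j ≠ 0), a j) * q ≤ s * F * q :=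
        Nat.mul_le_mul_right _ h3
      omega
  refine ⟨univ.image π, ?_, col, ?_⟩
  · rw [card_image_of_injective _ hinj, card_univ, Fintype.card_fun, Fintype.card_fin, ZMod.card]
    have h3 : N ≤ 4 * K * q := by
      have : (n + 1) * (2 * K) ≤ q * (4 * K) := by nlinarith
      nlinarith
    have h4 : N ^ s ≤ (4 * K) ^ s * q ^ s := by
      rw [← mul_pow]
      exact Nat.pow_le_pow_left h3 _
    have h6 : N ^ C * N ≤ q ^ s * N := by
      calc N ^ C * N = N ^ s := (pow_succ _ _).symm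
        _ ≤ (4 * K) ^ s * q ^ s := h4
        _ ≤ N * q ^ s := Nat.mul_le_mul_right _ hN
        _ = q ^ s * N := mul_comm _ _
    exact Nat.le_of_mul_le_mul_right h6 (by omega)
  · intro x hx y hy hxy
    obtain ⟨u, _, rfl⟩ := mem_image.1 hx
    obtain ⟨v, _, rfl⟩ := mem_image.1 hy
    exact hcπ u v fun h => hxy (by rw [h])

end Pool.Agent.H782.Sym
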