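import Pool.Agent.H782.Sym.Blocks

set_option autoImplicit false

/-! The exponent of the largest length as a function of the number of blocks. -/

namespace Pool.Agent.H782.Sym

open Finset Pool.Agent.H818R2.Ram Filter Topology

/-- the largest length of words that have a good colouring with `b` blocks -/
noncomputable def maxLen (b k : ℕ) : ℕ := sSup {m : ℕ | Good b m k}

lemma R_le_four_pow {k : ℕ} (hk : 1 ≤ k) : R k k ≤ 4 ^ k := by
  obtain ⟨a, rfl⟩ : ∃ a, k = a + 1 := ⟨k - 1, by omega⟩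
  refine (R_succ_le_choose a a).trans ?_
  calc (a + a).choose a ≤ 2 ^ (a + a) := Nat.choose_le_two_pow _ _
    _ = 4 ^ a := by rw [← two_mul, pow_mul]; norm_num
    _ ≤ 4 ^ (a + 1) := Nat.pow_le_pow_right (by norm_num) (by omega)

lemma good_lt {b m k : ℕ} (hk : 1 ≤ k) (h : Good b m k) : m < 2 * k := by
  have h1 := (lt_of_good h).trans_le (R_le_four_pow hk)
  have h2 : (2 : ℕ) ^ m < 2 ^ (2 * k) := by
    calc (2 : ℕ) ^ m < 4 ^ k := h1
      _ = 2 ^ (2 * k) := by rw [pow_mul]; norm_num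
  exact (Nat.pow_lt_pow_iff_right (by norm_num)).1 h2

lemma bdd {b k : ℕ} (hk : 1 ≤ k) : BddAbove {m : ℕ | Good b m k} :=
  ⟨2 * k, fun _ hm => (good_lt hk hm).le⟩

lemma le_maxLen {b m k : ℕ} (hk : 1 ≤ k) (h : Good b m k) : m ≤ maxLen b k := le_csSup (bdd hk) h

lemma good_maxLen {b k : ℕ} (hk : 3 ≤ k) : Good b (maxLen b k) k := by
  have hne : {m : ℕ | Good b m k}.Nonempty :=
    ⟨0, good_of_lt (Nat.zero_le _) (two_pow_lt_R hk (by omega))⟩
  exact Nat.sSup_mem hne (bdd (by omega))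

lemma min_le_maxLen {b k : ℕ} (hk : 3 ≤ k) : min b (k / 2) ≤ maxLen b k := by
  apply le_maxLen (by omega)
  apply good_of_lt (min_le_left _ _)
  apply two_pow_lt_R hk
  have := min_le_right b (k / 2)
  omega

theorem growth (β : ℝ) (hβ : 0 ≤ β) :
    Tendsto (fun k : ℕ => Real.log (maxLen ⌈(k : ℝ) ^ β⌉₊ k) / Real.log k) atTop
      (𝓝 (min β 1)) := by
  rw [Metric.tendsto_atTop]
  intro δ hδ
  obtain ⟨K, hK⟩ := two_sided (δ / 4) (by linarith)
  obtain ⟨L, hL⟩ := exists_nat_gt (Real.exp (4 / δ * Real.log 4))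
  refine ⟨max (max K 4) L, fun k hk => ?_⟩
  have hkK : K ≤ k := (le_max_left _ _).trans ((le_max_left _ _).trans hk)
  have hk4 : 4 ≤ k := (le_max_right _ _).trans ((le_max_left _ _).trans hk)
  have hkL : L ≤ k := (le_max_right _ _).trans hk
  have hk4' : (4 : ℝ) ≤ k := by exact_mod_cast hk4
  have hk0 : (0 : ℝ) < k := by linarith
  have hk1 : (1 : ℝ) ≤ k := by linarith
  have hlog0 : 0 < Real.log k := Real.log_pos (by linarith)
  have hlog : Real.log 4 ≤ δ / 4 * Real.log k := by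
    have h1 : Real.exp (4 / δ * Real.log 4) < k := hL.trans_le (by exact_mod_cast hkL)
    have h2 : 4 / δ * Real.log 4 < Real.log k := by
      rwa [Real.lt_log_iff_exp_lt hk0]
    have h3 : Real.log 4 = δ / 4 * (4 / δ * Real.log 4) := by
      field_simp
    rw [h3]
    exact mul_le_mul_of_nonneg_left h2.le (by linarith)
  set b := ⌈(k : ℝ) ^ β⌉₊ with hb
  have hkβ : (1 : ℝ) ≤ (k : ℝ) ^ β := Real.one_le_rpow hk1 hβ
  have hb1 : (k : ℝ) ^ β ≤ b := Nat.le_ceil _
  have hb2 : (b : ℝ) ≤ 2 * (k : ℝ) ^ β := by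
    have := Nat.ceil_lt_add_one (by positivity : (0 : ℝ) ≤ (k : ℝ) ^ β)
    rw [← hb] at this
    linarith
  have hb3 : 1 ≤ b := by
    have : (1 : ℝ) ≤ b := hkβ.trans hb1
    exact_mod_cast this
  set m := maxLen b k with hm
  have hgood : Good b m k := good_maxLen (by omega)
  -- lower bound
  have hlow : (k : ℝ) ^ (min β 1) ≤ 4 * m := by
    have h1 : min b (k / 2) ≤ m := min_le_maxLen (by omega)
    rcases min_choice b (k / 2) with h2 | h2
    · rw [h2] at h1
      have h3 : (k : ℝ) ^ (min β 1) ≤ (k : ℝ) ^ β :=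
        Real.rpow_le_rpow_of_exponent_le hk1 (min_le_left _ _)
      have h4 : (b : ℝ) ≤ m := by exact_mod_cast h1
      linarith
    · rw [h2] at h1
      have h3 : (k : ℝ) ^ (min β 1) ≤ (k : ℝ) ^ (1 : ℝ) :=
        Real.rpow_le_rpow_of_exponent_le hk1 (min_le_right _ _)
      rw [Real.rpow_one] at h3
      have h4 : k ≤ 4 * m := by omega
      have h5 : (k : ℝ) ≤ 4 * m := by exact_mod_cast h4
      linarith
  have hm0 : (0 : ℝ) < m := by
    have : (0 : ℝ) < (k : ℝ) ^ (min β 1) := Real.rpow_pos_of_pos hk0 _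
    linarith
  have hupp : (m : ℝ) ≤ 2 * (k : ℝ) ^ (min β 1 + δ / 4) := by
    rcases min_choice β 1 with h2 | h2
    · rw [h2]
      have h3 := ((hK k hkK b m hb3).2 hgood).2
      rw [Real.rpow_add hk0]
      have h4 : (b : ℝ) * (k : ℝ) ^ (δ / 4) ≤ 2 * (k : ℝ) ^ β * (k : ℝ) ^ (δ / 4) :=
        mul_le_mul_of_nonneg_right hb2 (by positivity)
      linarith
    · rw [h2]
      have h3 : (m : ℝ) ≤ 2 * k := by exact_mod_cast (good_lt (by omega) hgood).le
      have h4 : (k : ℝ) ≤ (k : ℝ) ^ (1 + δ / 4) := by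
        calc (k : ℝ) = (k : ℝ) ^ (1 : ℝ) := (Real.rpow_one _).symm
          _ ≤ _ := Real.rpow_le_rpow_of_exponent_le hk1 (by linarith)
      linarith
  have h1 : min β 1 * Real.log k ≤ Real.log 4 + Real.log m := by
    rw [← Real.log_mul (by norm_num) hm0.ne', ← Real.log_rpow hk0]
    exact Real.log_le_log (Real.rpow_pos_of_pos hk0 _) hlow
  have h2 : Real.log m ≤ Real.log 2 + (min β 1 + δ / 4) * Real.log k := by
    rw [← Real.log_rpow hk0, ← Real.log_mul (by norm_num) (Real.rpow_pos_of_pos hk0 _).ne']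
    exact Real.log_le_log hm0 hupp
  have h3 : Real.log 2 ≤ Real.log 4 := Real.log_le_log (by norm_num) (by norm_num)
  rw [Real.dist_eq, abs_lt]
  constructor
  · rw [lt_sub_iff_add_lt, lt_div_iff₀ hlog0]
    nlinarith
  · rw [sub_lt_iff_lt_add, div_lt_iff₀ hlog0]
    nlinarith

end Pool.Agent.H782.Sym
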