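import Pool.Agent.H782.Sym.Words

set_option autoImplicit false

/-! Isomorphism-invariant colourings of the pairs of labelled `r`-uniform hypergraphs. -/

namespace Pool.Agent.H782.Sym

open Finset

/-- the hypergraph (set of edges) `G` with its vertices renamed by `σ` -/
def relabel {N : ℕ} (σ : Equiv.Perm (Fin N)) (G : Finset (Finset (Fin N))) :
    Finset (Finset (Fin N)) := G.image (fun e => e.image σ)

lemma relabel_powersetCard {N : ℕ} (r : ℕ) (σ : Equiv.Perm (Fin N)) (A : Finset (Fin N)) :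
    relabel σ (A.powersetCard r) = (A.map σ.toEmbedding).powersetCard r := by
  classical
  unfold relabel
  rw [powersetCard_map, map_eq_image]
  refine image_congr fun e _ => ?_
  simp [mapEmbedding, map_eq_image]

lemma powersetCard_inj {N r W : ℕ} (hr : 1 ≤ r) (hW : r ≤ W) {A B : Finset (Fin N)}
    (hA : A.card = W) (hB : B.card = W) (h : A.powersetCard r = B.powersetCard r) : A = B := by
  classical
  have key : ∀ {A B : Finset (Fin N)}, A.card = W → A.powersetCard r = B.powersetCard r → A ⊆ B := by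
    intro A B hA h x hx
    obtain ⟨e, he1, he2, he3⟩ := exists_subsuperset_card_eq (n := r)
      (singleton_subset_iff.2 hx) (by rw [card_singleton]; exact hr) (by rw [hA]; exact hW)
    have h1 : e ∈ B.powersetCard r := by
      rw [← h, mem_powersetCard]
      exact ⟨he2, he3⟩
    exact (mem_powersetCard.1 h1).1 (singleton_subset_iff.1 he1)
  exact Subset.antisymm (key hA h) (key hB h.symm)

/-- **Hypergraphs.** -/
theorem hypergraphs (t r : ℕ) (hr : 1 ≤ r) (ε : ℝ) (hε : 0 < ε) : ∃ K : ℕ, ∀ k : ℕ, K ≤ k →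
    ∀ (N : ℕ) (c : Finset (Finset (Fin N)) → Finset (Finset (Fin N)) → Fin t),
    (∀ σ : Equiv.Perm (Fin N), ∃ π : Equiv.Perm (Fin t), ∀ G H : Finset (Finset (Fin N)),
      (∀ e ∈ G, e.card = r) → (∀ e ∈ H, e.card = r) → G ≠ H →
        c (relabel σ G) (relabel σ H) = π (c G H)) →
    (k : ℝ) ^ ε ≤ N.choose r →
    ∃ S : Finset (Finset (Finset (Fin N))), k ≤ S.card ∧ (∀ G ∈ S, ∀ e ∈ G, e.card = r) ∧
      ∃ col, ∀ G ∈ S, ∀ H ∈ S, G ≠ H → c G H = col := by
  classical
  have hr0 : (0 : ℝ) < r := by exact_mod_cast hr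
  obtain ⟨C, hC⟩ := exists_nat_gt (1 / (ε / r))
  have hεr : 0 < ε / r := by positivity
  have hC' : 1 ≤ ε / r * C := by
    have := (div_lt_iff₀ hεr).1 hC
    linarith
  obtain ⟨w, hw⟩ := principle' t C
  obtain ⟨K, hK1, hK⟩ := param C (max w r) (ε / r) hεr hC'
  refine ⟨K, fun k hk N c hc hN => ?_⟩
  have hN' : (k : ℝ) ^ (ε / r) ≤ N := by
    have h1 : (k : ℝ) ^ ε ≤ (N : ℝ) ^ r := by
      refine hN.trans ?_
      exact_mod_cast Nat.choose_le_pow N r
    have h2 := Real.rpow_le_rpow (by positivity) h1 (by positivity : (0 : ℝ) ≤ 1 / r)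
    rw [← Real.rpow_mul (by positivity), mul_one_div] at h2
    refine h2.trans ?_
    rw [← Real.rpow_natCast, ← Real.rpow_mul (by positivity), mul_one_div_cancel hr0.ne',
      Real.rpow_one]
  obtain ⟨h1, h2⟩ := hK k hk N hN'
  obtain ⟨S, hS1, hS2, col, hS3⟩ := hw N (max w r) (le_max_left _ _)
    (by have := le_max_left w r; omega) _ (fun A => A.powersetCard r) c (by
      intro σ
      obtain ⟨π, hπ⟩ := hc σ
      refine ⟨π, fun A B hA hB hAB => ?_⟩
      simp only
      unfold mv
      rw [← relabel_powersetCard, ← relabel_powersetCard]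
      apply hπ
      · intro e he; exact (mem_powersetCard.1 he).2
      · intro e he; exact (mem_powersetCard.1 he).2
      · exact fun h => hAB (powersetCard_inj hr (le_max_right w r) hA hB h))
  refine ⟨S.image (fun A => A.powersetCard r), ?_, ?_, col, ?_⟩
  · rw [card_image_of_injOn]
    · exact h2.trans hS2
    · intro A hA B hB hAB
      exact powersetCard_inj hr (le_max_right w r) (hS1 A hA) (hS1 B hB) hAB
  · intro G hG e he
    obtain ⟨A, _, rfl⟩ := mem_image.1 hG
    exact (mem_powersetCard.1 he).2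
  · intro G hG H hH hGH
    obtain ⟨A, hA, rfl⟩ := mem_image.1 hG
    obtain ⟨B, hB, rfl⟩ := mem_image.1 hH
    exact hS3 A hA B hB fun h => hGH (by rw [h])

end Pool.Agent.H782.Sym
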