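import Pool.Agent.H782.Sym.Folk

set_option autoImplicit false

/-! Colourings of the pairs of `W`-subsets by the size of their intersection. -/

namespace Pool.Agent.H782.Sym

open Finset

lemma card_lt_fin (M a : ℕ) (h : a ≤ M) : (univ.filter (fun i : Fin M => (i : ℕ) < a)).card = a := by
  rw [Fin.card_filter_val_lt]
  exact min_eq_right h

lemma card_common {s q M : ℕ} (a : Fin s → ℕ) (ha : ∀ j, a j ≤ M) (u v : Fin s → Fin q) :
    (univ.filter (fun p : Fin s × Fin q × Fin M =>
      p.2.1 = u p.1 ∧ p.2.1 = v p.1 ∧ (p.2.2 : ℕ) < a p.1)).card =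
      ∑ j ∈ univ.filter (fun j => u j = v j), a j := by
  classical
  rw [card_filter, Fintype.sum_prod_type, sum_filter]
  refine sum_congr rfl fun j _ => ?_
  rw [Fintype.sum_prod_type]
  rw [sum_eq_single (u j)]
  · split_ifs with h
    · simp only [h, true_and]
      rw [← card_filter]
      exact card_lt_fin M (a j) (ha j)
    · apply sum_eq_zero
      intro i _
      simp [h]
  · intro x _ hx
    apply sum_eq_zero
    intro i _
    simp [hx]
  · intro h; exact absurd (mem_univ _) h

lemma card_one {s q M : ℕ} (a : Fin s → ℕ) (ha : ∀ j, a j ≤ M) (u : Fin s → Fin q) :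
    (univ.filter (fun p : Fin s × Fin q × Fin M =>
      p.2.1 = u p.1 ∧ (p.2.2 : ℕ) < a p.1)).card = ∑ j, a j := by
  classical
  have h := card_common a ha u u
  simp only [filter_true] at h
  rw [← h]
  congr 1
  ext p
  simp

/-- The construction: a product set in blocks, padded by common elements. -/
lemma construct {t : ℕ} (N W s q M : ℕ) (a : Fin s → ℕ) (ha0 : ∀ j, 0 < a j) (haM : ∀ j, a j ≤ M)
    (h1 : s * (q * M) + W ≤ N) (h2 : ∑ j, a j ≤ W) (f : ℕ → Fin t) (col : Fin t)
    (hf : ∀ J : Finset (Fin s), J.Nonempty → f (W - ∑ j ∈ J, a j) = col) :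
    ∃ S : Finset (Finset (Fin N)), (∀ A ∈ S, A.card = W) ∧ q ^ s = S.card ∧
      ∀ A ∈ S, ∀ B ∈ S, A ≠ B → f (A ∩ B).card = col := by
  classical
  obtain ⟨ρ⟩ : Nonempty ((Fin s × Fin q × Fin M) ↪ Fin N) := by
    apply Function.Embedding.nonempty_of_card_le
    simp only [Fintype.card_prod, Fintype.card_fin]
    omega
  have hR : W - ∑ j, a j ≤ ((univ.map ρ)ᶜ : Finset (Fin N)).card := by
    rw [card_compl, card_map, card_univ]
    simp only [Fintype.card_prod, Fintype.card_fin]
    omega
  obtain ⟨P, hP1, hP2⟩ := exists_subset_card_eq hR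
  let B : (Fin s → Fin q) → Finset (Fin s × Fin q × Fin M) := fun u =>
    univ.filter (fun p => p.2.1 = u p.1 ∧ (p.2.2 : ℕ) < a p.1)
  let A : (Fin s → Fin q) → Finset (Fin N) := fun u => (B u).map ρ ∪ P
  have hdisj : ∀ X : Finset (Fin s × Fin q × Fin M), Disjoint (X.map ρ) P := by
    intro X
    rw [disjoint_left]
    intro x hx hxP
    have h3 := hP1 hxP
    rw [mem_compl] at h3
    apply h3
    obtain ⟨y, _, rfl⟩ := mem_map.1 hx
    exact mem_map_of_mem _ (mem_univ y)
  have hcard : ∀ u, (A u).card = W := by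
    intro u
    rw [card_union_of_disjoint (hdisj _), card_map, hP2]
    rw [show (B u).card = ∑ j, a j from card_one a haM u]
    omega
  have hinter : ∀ u v, (A u ∩ A v).card = W - ∑ j ∈ univ.filter (fun j => u j ≠ v j), a j := by
    intro u v
    have h3 : A u ∩ A v = (B u ∩ B v).map ρ ∪ P := by
      rw [map_inter]
      ext x
      simp only [A, mem_inter, mem_union]
      tauto
    rw [h3, card_union_of_disjoint (hdisj _), card_map, hP2]
    have h4 : (B u ∩ B v) = univ.filter (fun p : Fin s × Fin q × Fin M =>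
      p.2.1 = u p.1 ∧ p.2.1 = v p.1 ∧ (p.2.2 : ℕ) < a p.1) := by
      ext p
      simp only [B, mem_inter, mem_filter, mem_univ, true_and]
      tauto
    rw [h4, card_common a haM u v]
    have h5 := sum_filter_add_sum_filter_not univ (fun j => u j = v j) a
    simp only [ne_eq]
    omega
  have hinj : Function.Injective A := by
    intro u v huv
    by_contra hne
    obtain ⟨j, hj⟩ := Function.ne_iff.1 hne
    have h3 := hinter u v
    rw [huv, inter_self, hcard] at h3
    have h4 : a j ≤ ∑ j ∈ univ.filter (fun j => u j ≠ v j), a j :=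
      single_le_sum (fun _ _ => Nat.zero_le _) (by simp [hj])
    have h5 := ha0 j
    have h6 : ∑ j ∈ univ.filter (fun j => u j ≠ v j), a j ≤ ∑ j, a j :=
      sum_le_sum_of_subset (filter_subset _ _)
    omega
  refine ⟨univ.image A, ?_, ?_, ?_⟩
  · intro X hX
    obtain ⟨u, _, rfl⟩ := mem_image.1 hX
    exact hcard u
  · rw [card_image_of_injective _ hinj, card_univ, Fintype.card_fun, Fintype.card_fin,
      Fintype.card_fin]
  · intro X hX Y hY hXY
    obtain ⟨u, _, rfl⟩ := mem_image.1 hX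
    obtain ⟨v, _, rfl⟩ := mem_image.1 hY
    rw [hinter]
    apply hf
    have hne : u ≠ v := fun h => hXY (by rw [h])
    obtain ⟨j, hj⟩ := Function.ne_iff.1 hne
    exact ⟨j, by simp [hj]⟩

lemma johnson_half (t C : ℕ) : ∃ w : ℕ, ∀ N W : ℕ, w ≤ W → 2 * W ≤ N → ∀ f : ℕ → Fin t,
    ∃ S : Finset (Finset (Fin N)), (∀ A ∈ S, A.card = W) ∧ N ^ C ≤ S.card ∧
      ∃ col, ∀ A ∈ S, ∀ B ∈ S, A ≠ B → f (A ∩ B).card = col := by
  obtain ⟨F, hF⟩ := folkman t (C + 1)
  refine ⟨(4 * ((C + 1) * (F + 1))) ^ (C + 1), fun N W hw hN f => ?_⟩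
  obtain ⟨a, col, ha0, haF, hcol⟩ := hF (fun d => f (W - d))
  set K := (C + 1) * (F + 1) with hK
  have hK1 : 1 ≤ K := Nat.mul_pos (by omega) (by omega)
  have hKw : 4 * K ≤ (4 * K) ^ (C + 1) := Nat.le_self_pow (by omega) _
  set q := N / (2 * K) with hq
  have hq1 : q * (2 * K) ≤ N := Nat.div_mul_le_self _ _
  have hq2 : N < (q + 1) * (2 * K) := by
    rw [hq]
    have := Nat.lt_div_mul_add (a := N) (b := 2 * K) (by omega)
    nlinarith
  have hq3 : 1 ≤ q := by
    rw [hq]
    exact Nat.div_pos (by omega) (by omega)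
  have hsum : ∑ j, a j ≤ W := by
    have h3 : ∑ j, a j ≤ ∑ _j : Fin (C + 1), F := sum_le_sum fun j _ => haF j
    rw [sum_const, card_univ, Fintype.card_fin, smul_eq_mul] at h3
    have h4 : (C + 1) * F ≤ K := Nat.mul_le_mul_left _ (by omega)
    omega
  obtain ⟨S, hS1, hS2, hS3⟩ := construct N W (C + 1) q (F + 1) a ha0
    (fun j => (haF j).trans (by omega))
    (by
      have : (C + 1) * (q * (F + 1)) = q * K := by rw [hK]; ring
      rw [this]
      have h3 : 2 * (q * K) = q * (2 * K) := by ring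
      omega) hsum f col hcol
  refine ⟨S, hS1, ?_, col, hS3⟩
  rw [← hS2]
  have h3 : N ≤ 4 * K * q := by nlinarith
  have h4 : N ^ (C + 1) ≤ (4 * K) ^ (C + 1) * q ^ (C + 1) := by
    rw [← mul_pow]
    exact Nat.pow_le_pow_left h3 _
  have h5 : (4 * K) ^ (C + 1) ≤ N := by omega
  have h6 : N ^ C * N ≤ q ^ (C + 1) * N := by
    calc N ^ C * N = N ^ (C + 1) := (pow_succ _ _).symm
      _ ≤ (4 * K) ^ (C + 1) * q ^ (C + 1) := h4
      _ ≤ N * q ^ (C + 1) := Nat.mul_le_mul_right _ h5
      _ = q ^ (C + 1) * N := mul_comm _ _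
  exact Nat.le_of_mul_le_mul_right h6 (by omega)

/-- **Johnson schemes.** For all `t` and `C` there is `w` such that every `t`-colouring of the pairs
of `W`-subsets of an `N`-set by the size of their intersection has a monochromatic set of at least
`N ^ C` points, if `w ≤ W ≤ N - w`. -/
theorem johnson (t C : ℕ) : ∃ w : ℕ, ∀ N W : ℕ, w ≤ W → W + w ≤ N → ∀ f : ℕ → Fin t,
    ∃ S : Finset (Finset (Fin N)), (∀ A ∈ S, A.card = W) ∧ N ^ C ≤ S.card ∧
      ∃ col, ∀ A ∈ S, ∀ B ∈ S, A ≠ B → f (A ∩ B).card = col := by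
  classical
  obtain ⟨w, hw⟩ := johnson_half t C
  refine ⟨w, fun N W h1 h2 f => ?_⟩
  rcases le_or_gt (2 * W) N with h | h
  · exact hw N W h1 h f
  · obtain ⟨S, hS1, hS2, col, hS3⟩ := hw N (N - W) (by omega) (by omega) (fun d => f (d + W + W - N))
    have hinj : Function.Injective (fun A : Finset (Fin N) => Aᶜ) := compl_injective
    refine ⟨S.image (fun A => Aᶜ), ?_, ?_, col, ?_⟩
    · intro A hA
      obtain ⟨B, hB, rfl⟩ := mem_image.1 hA
      rw [card_compl, hS1 B hB, Fintype.card_fin]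
      omega
    · rwa [card_image_of_injective _ hinj]
    · intro A hA B hB hAB
      obtain ⟨A', hA', rfl⟩ := mem_image.1 hA
      obtain ⟨B', hB', rfl⟩ := mem_image.1 hB
      have hne : A' ≠ B' := fun h => hAB (by rw [h])
      have h3 := hS3 A' hA' B' hB' hne
      have h4 : (A'ᶜ ∩ B'ᶜ).card = (A' ∩ B').card + W + W - N := by
        rw [← compl_union, card_compl, Fintype.card_fin]
        have h5 := card_union_add_card_inter A' B'
        rw [hS1 A' hA', hS1 B' hB'] at h5
        have h6 : (A' ∪ B').card ≤ N := by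
          have := card_le_univ (A' ∪ B')
          rwa [Fintype.card_fin] at this
        omega
      rw [h4]
      exact h3

end Pool.Agent.H782.Sym
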