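import Pool.Agent.H782.Sym.Even

set_option autoImplicit false

/-! Colourings of the pairs of words invariant under the permutations of the coordinates within
blocks. -/

namespace Pool.Agent.H782.Sym

open Finset

/-- `c` is a colouring of the pairs of words of length `m` over `Q`. Every permutation of the
coordinates inside the blocks (the fibres of `β`) permutes the colour classes of `c`. -/
def BlockInvariant {m b t : ℕ} {Q : Type} (β : Fin m → Fin b)
    (c : (Fin m → Q) → (Fin m → Q) → Fin t) : Prop :=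
  ∀ σ : Equiv.Perm (Fin m), (∀ i, β (σ i) = β i) →
    ∃ π : Equiv.Perm (Fin t), ∀ x y, x ≠ y → c (x ∘ σ) (y ∘ σ) = π (c x y)

/-- there is a set of at least `k` points all pairs of which have the same colour -/
def HasMono {X : Type} {t : ℕ} (c : X → X → Fin t) (k : ℕ) : Prop :=
  ∃ S : Finset X, k ≤ S.card ∧ ∃ col, ∀ x ∈ S, ∀ y ∈ S, x ≠ y → c x y = col

/-- transfer of the principle along an injective map -/
lemma hasMono_of_image {N W t k : ℕ} {X : Type} (E : Finset (Fin N) → X) (c : X → X → Fin t)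
    (hE : ∀ A B : Finset (Fin N), A.card = W → B.card = W → E A = E B → A = B)
    (h : ∃ S : Finset (Finset (Fin N)), (∀ A ∈ S, A.card = W) ∧ k ≤ S.card ∧
      ∃ col, ∀ A ∈ S, ∀ B ∈ S, A ≠ B → c (E A) (E B) = col) : HasMono c k := by
  classical
  obtain ⟨S, hS1, hS2, col, hS3⟩ := h
  refine ⟨S.image E, ?_, col, ?_⟩
  · rwa [card_image_of_injOn]
    intro A hA B hB hAB
    exact hE A B (hS1 A hA) (hS1 B hB) hAB
  · intro x hx y hy hxy
    obtain ⟨A, hA, rfl⟩ := mem_image.1 hx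
    obtain ⟨B, hB, rfl⟩ := mem_image.1 hy
    exact hS3 A hA B hB fun h => hxy (by rw [h])

/-- The general statement on group actions. -/
theorem action_nat (t C : ℕ) : ∃ w : ℕ, ∀ N W : ℕ, w ≤ W → W + w ≤ N → ∀ (X : Type)
    [MulAction (Equiv.Perm (Fin N)) X] (c : X → X → Fin t),
    (∀ σ : Equiv.Perm (Fin N), ∃ π : Equiv.Perm (Fin t), ∀ x y : X, x ≠ y →
      c (σ • x) (σ • y) = π (c x y)) →
    ∀ (x : X) (A : Finset (Fin N)), A.card = W →
    (∀ σ : Equiv.Perm (Fin N), σ • x = x ↔ A.map σ.toEmbedding = A) → HasMono c (N ^ C) := by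
  classical
  obtain ⟨w, hw⟩ := principle' t C
  refine ⟨w, fun N W h1 h2 X _ c hc x A₀ hA₀ hst => ?_⟩
  have hex : ∀ A : Finset (Fin N), A.card = W → ∃ σ : Equiv.Perm (Fin N), mv σ A₀ = A := by
    intro A hA
    obtain ⟨σ, hσ, -⟩ := exists_perm_pair A₀ A₀ A A (by rw [hA₀, hA]) (by rw [hA₀, hA])
      (by rw [inter_self, inter_self, hA₀, hA])
    exact ⟨σ, hσ⟩
  let E : Finset (Fin N) → X := fun A =>
    if h : ∃ σ : Equiv.Perm (Fin N), mv σ A₀ = A then h.choose • x else x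
  have hE : ∀ (σ : Equiv.Perm (Fin N)), E (mv σ A₀) = σ • x := by
    intro σ
    have h : ∃ τ : Equiv.Perm (Fin N), mv τ A₀ = mv σ A₀ := ⟨σ, rfl⟩
    simp only [E]
    rw [dif_pos h]
    have h3 := h.choose_spec
    set τ := h.choose with hτ
    have h4 : (σ⁻¹ * τ) • x = x := by
      rw [hst]
      show mv (σ⁻¹ * τ) A₀ = A₀
      rw [mv_mul, h3, ← mv_mul, inv_mul_cancel, mv_one]
    rw [mul_smul] at h4
    exact inv_smul_eq_iff.1 h4
  have hEinj : ∀ A B : Finset (Fin N), A.card = W → B.card = W → E A = E B → A = B := by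
    intro A B hA hB hAB
    obtain ⟨σ, rfl⟩ := hex A hA
    obtain ⟨τ, rfl⟩ := hex B hB
    rw [hE, hE] at hAB
    have h3 : (τ⁻¹ * σ) • x = x := by
      rw [mul_smul, hAB, inv_smul_smul]
    rw [hst] at h3
    have h4 : mv (τ⁻¹ * σ) A₀ = A₀ := h3
    have h5 := congrArg (mv τ) h4
    rwa [← mv_mul, mul_inv_cancel_left] at h5
  apply hasMono_of_image (W := W) E c hEinj
  apply hw N W h1 h2 X E c
  intro σ
  obtain ⟨π, hπ⟩ := hc σ
  refine ⟨π, fun A B hA hB hAB => ?_⟩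
  have hne : E A ≠ E B := fun h => hAB (hEinj A B hA hB h)
  obtain ⟨τ, rfl⟩ := hex A hA
  obtain ⟨ρ, rfl⟩ := hex B hB
  simp only
  rw [← mv_mul, ← mv_mul, hE, hE, hE, hE, mul_smul, mul_smul]
  rw [hE, hE] at hne
  exact hπ _ _ hne

/-- Words: a block with `N` coordinates gives a monochromatic set of size `N ^ C`. -/
theorem words_nat (t C : ℕ) : ∃ w : ℕ, ∀ N m b : ℕ, 2 * w ≤ N → ∀ (β : Fin m → Fin b) (j : Fin b),
    N ≤ (univ.filter (fun i => β i = j)).card → ∀ (Q : Type) [Nontrivial Q]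
    (c : (Fin m → Q) → (Fin m → Q) → Fin t), BlockInvariant β c → HasMono c (N ^ C) := by
  classical
  obtain ⟨w, hw⟩ := principle' t C
  refine ⟨w, fun N m b hN β j hj Q _ c hc => ?_⟩
  obtain ⟨q0, q1, hq⟩ := exists_pair_ne Q
  obtain ⟨U, hU1, hU2⟩ := exists_subset_card_eq hj
  set ρ : Fin N ↪ Fin m := (U.equivFinOfCardEq hU2).symm.toEmbedding.trans
    (Function.Embedding.subtype _) with hρ
  have hβ : ∀ x, β (ρ x) = j := by
    intro x
    have := hU1 ((U.equivFinOfCardEq hU2).symm x).2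
    exact (mem_filter.1 this).2
  let E : Finset (Fin N) → (Fin m → Q) := fun A i => if i ∈ A.map ρ then q1 else q0
  have hEinj : ∀ A B : Finset (Fin N), E A = E B → A = B := by
    intro A B hAB
    ext x
    have h3 := congrFun hAB (ρ x)
    simp only [E, mem_map'] at h3
    by_cases hA : x ∈ A <;> by_cases hB : x ∈ B
    · tauto
    · rw [if_pos hA, if_neg hB] at h3; exact absurd h3.symm hq
    · rw [if_neg hA, if_pos hB] at h3; exact absurd h3 hq
    · tauto
  apply hasMono_of_image (W := w) E c (fun A B _ _ h => hEinj A B h)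
  apply hw N w le_rfl (by omega) (Fin m → Q) E c
  intro σ
  have key : ∀ A : Finset (Fin N), E A ∘ (Equiv.Perm.viaEmbedding σ⁻¹ ρ) = E (mv σ A) := by
    intro A
    funext i
    simp only [Function.comp, E]
    unfold mv
    by_cases hi : i ∈ Set.range ρ
    · obtain ⟨x, rfl⟩ := hi
      rw [Equiv.Perm.viaEmbedding_apply]
      refine if_congr ?_ rfl rfl
      rw [mem_map', mem_map', mem_map]
      constructor
      · intro h
        exact ⟨σ⁻¹ x, h, by simp⟩
      · rintro ⟨y, hy, rfl⟩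
        simpa using hy
    · rw [Equiv.Perm.viaEmbedding_apply_of_notMem _ _ _ hi]
      have h1 : i ∉ A.map ρ := by
        intro h
        obtain ⟨x, _, rfl⟩ := mem_map.1 h
        exact hi ⟨x, rfl⟩
      have h2 : i ∉ (A.map σ.toEmbedding).map ρ := by
        intro h
        obtain ⟨x, _, rfl⟩ := mem_map.1 h
        exact hi ⟨x, rfl⟩
      rw [if_neg h1, if_neg h2]
  obtain ⟨π, hπ⟩ := hc (Equiv.Perm.viaEmbedding σ⁻¹ ρ) (by
    intro i
    by_cases hi : i ∈ Set.range ρ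
    · obtain ⟨x, rfl⟩ := hi
      rw [Equiv.Perm.viaEmbedding_apply, hβ, hβ]
    · rw [Equiv.Perm.viaEmbedding_apply_of_notMem _ _ _ hi])
  refine ⟨π, fun A B _ _ hAB => ?_⟩
  simp only
  rw [← key, ← key]
  exact hπ _ _ fun h => hAB (hEinj A B h)

/-- choice of parameters -/
lemma param (C w : ℕ) (ε : ℝ) (hε : 0 < ε) (hC : 1 ≤ ε * C) : ∃ K : ℕ, 1 ≤ K ∧ ∀ k : ℕ, K ≤ k →
    ∀ N : ℕ, (k : ℝ) ^ ε ≤ N → 2 * w ≤ N ∧ k ≤ N ^ C := by
  obtain ⟨K, hK⟩ := exists_nat_gt ((2 * (w : ℝ) + 1) ^ (1 / ε))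
  refine ⟨max K 1, le_max_right _ _, fun k hk N hN => ?_⟩
  have hk1 : (1 : ℝ) ≤ k := by exact_mod_cast (le_max_right K 1).trans hk
  have hk2 : (2 * (w : ℝ) + 1) ^ (1 / ε) ≤ k := by
    refine hK.le.trans ?_
    exact_mod_cast (le_max_left K 1).trans hk
  constructor
  · have h1 : (2 * (w : ℝ) + 1) ≤ (k : ℝ) ^ ε := by
      have h2 := Real.rpow_le_rpow (by positivity) hk2 hε.le
      rwa [← Real.rpow_mul (by positivity), one_div_mul_cancel hε.ne', Real.rpow_one] at h2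
    have h3 : (2 * w : ℝ) ≤ N := by linarith
    exact_mod_cast h3
  · have h1 : (k : ℝ) ≤ (N : ℝ) ^ C := by
      calc (k : ℝ) = (k : ℝ) ^ (1 : ℝ) := (Real.rpow_one _).symm
        _ ≤ (k : ℝ) ^ (ε * C) := Real.rpow_le_rpow_of_exponent_le hk1 hC
        _ = ((k : ℝ) ^ ε) ^ C := by rw [Real.rpow_mul (by positivity), Real.rpow_natCast]
        _ ≤ (N : ℝ) ^ C := pow_le_pow_left₀ (by positivity) hN _
    exact_mod_cast h1

lemma HasMono.mono {X : Type} {t : ℕ} {c : X → X → Fin t} {k l : ℕ} (h : HasMono c l) (hkl : k ≤ l) :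
    HasMono c k := by
  obtain ⟨S, hS, h⟩ := h
  exact ⟨S, hkl.trans hS, h⟩

/-- a large block -/
lemma exists_block {m b : ℕ} (hb : 1 ≤ b) (β : Fin m → Fin b) (x : ℝ) (h : (b : ℝ) * x ≤ m) :
    ∃ j, x ≤ ((univ.filter (fun i => β i = j)).card : ℝ) := by
  classical
  by_contra hcon
  push Not at hcon
  have h1 : (m : ℝ) = ∑ j : Fin b, ((univ.filter (fun i => β i = j)).card : ℝ) := by
    have h2 := card_eq_sum_card_fiberwise (s := (univ : Finset (Fin m))) (t := (univ : Finset (Fin b)))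
      (f := β) (by intro x _; simp)
    rw [card_univ, Fintype.card_fin] at h2
    exact_mod_cast h2
  have h2 : ∑ j : Fin b, ((univ.filter (fun i => β i = j)).card : ℝ) < ∑ _j : Fin b, x := by
    apply sum_lt_sum_of_nonempty
    · exact ⟨⟨0, by omega⟩, mem_univ _⟩
    · intro j _
      exact hcon j
  rw [sum_const, card_univ, Fintype.card_fin, nsmul_eq_mul] at h2
  linarith

/-- **Words in `b` blocks.** -/
theorem words (t : ℕ) (ε : ℝ) (hε : 0 < ε) : ∃ K : ℕ, ∀ k : ℕ, K ≤ k → ∀ m b : ℕ, 1 ≤ b →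
    ∀ (β : Fin m → Fin b) (Q : Type) [Nontrivial Q] (c : (Fin m → Q) → (Fin m → Q) → Fin t),
    BlockInvariant β c → (b : ℝ) * (k : ℝ) ^ ε ≤ m → HasMono c k := by
  obtain ⟨C, hC⟩ := exists_nat_gt (1 / ε)
  have hC' : 1 ≤ ε * C := by
    have := (div_lt_iff₀ hε).1 hC
    linarith
  obtain ⟨w, hw⟩ := words_nat t C
  obtain ⟨K, -, hK⟩ := param C w ε hε hC'
  refine ⟨K, fun k hk m b hb β Q _ c hc hm => ?_⟩
  obtain ⟨j, hj⟩ := exists_block hb β _ hm
  obtain ⟨h1, h2⟩ := hK k hk _ hj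
  exact (hw _ m b h1 β j le_rfl Q c hc).mono h2

end Pool.Agent.H782.Sym
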